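import Mathlib
import Pool.Agent.R266.RSa

set_option autoImplicit false
open Filter Topology Finset

namespace Pool.Agent.Results.MP_89b5f7_an.TwoLevy

/-- The Euclidean plane. -/
abbrev Plane := EuclideanSpace ℝ (Fin 2)

/-- The series with terms `x n`, summed in the given order, converges to `s`. -/
def SumsTo (x : ℕ → Plane) (s : Plane) : Prop :=
  Tendsto (fun N => ∑ n ∈ range N, x n) atTop (𝓝 s)

/-- The series with terms `x n` converges conditionally. -/
def CondConv (x : ℕ → Plane) : Prop :=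
  (∃ s, SumsTo x s) ∧ ¬ Summable (fun n => ‖x n‖)

/-- The set of sums of all convergent rearrangements. -/
def sumRange (x : ℕ → Plane) : Set Plane :=
  {s | ∃ σ : Equiv.Perm ℕ, SumsTo (x ∘ σ) s}

/-- The set of sums of all convergent subseries, terms being summed in the given order. -/
def achievementSet (x : ℕ → Plane) : Set Plane :=
  {s | ∃ T : Set ℕ, SumsTo (T.indicator x) s}

/-- The cone of half-width `ε` around `u`. -/
def cone (ε : ℝ) (u : Plane) : Set Plane :=
  {v | (1 - ε) * ‖u‖ * ‖v‖ ≤ inner ℝ u v}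

/-- The set of Levy vectors. -/
def levyVectors (x : ℕ → Plane) : Set Plane :=
  {u | ‖u‖ = 1 ∧ ∀ ε > 0, ¬ Summable ({n | x n ∈ cone ε u}.indicator fun n => ‖x n‖)}

noncomputable section

/-- the level of the `j`-th group of eight terms -/
def lv (j : ℕ) : ℕ := Nat.sqrt (Nat.log 2 j)

def xi (k : ℕ) : ℝ := (1 / 2) ^ (k ^ 2)
def eta (k : ℕ) : ℝ := (1 / 2) ^ k

def s1 (r : ℕ) : ℝ := if r < 2 then 1 else -1
def s2 (r : ℕ) : ℝ := if r = 0 ∨ r = 3 then 1 else -1

/-- the series -/
def ser (n : ℕ) : Plane := !₂[s1 (n % 4) * xi (lv (n / 8)), s2 (n % 4) * eta (lv (n / 8))]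

theorem lv_ge (k j : ℕ) (h : 2 ^ (k ^ 2) ≤ j) : k ≤ lv j := by
  unfold lv
  rw [Nat.le_sqrt']
  exact Nat.le_log_of_pow_le (by norm_num) h

theorem lv_tendsto : Tendsto lv atTop atTop :=
  tendsto_atTop.2 fun k => (eventually_ge_atTop (2 ^ (k ^ 2))).mono fun j hj => lv_ge k j hj

theorem xi_pos (k : ℕ) : 0 < xi k := by unfold xi; positivity
theorem eta_pos (k : ℕ) : 0 < eta k := by unfold eta; positivity

theorem eta_tendsto : Tendsto eta atTop (𝓝 0) :=
  tendsto_pow_atTop_nhds_zero_of_lt_one (by norm_num) (by norm_num)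

theorem xi_le_eta (k : ℕ) : xi k ≤ eta k := by
  unfold xi eta
  apply pow_le_pow_of_le_one (by norm_num) (by norm_num)
  nlinarith [Nat.zero_le k]

theorem xi_tendsto : Tendsto xi atTop (𝓝 0) :=
  squeeze_zero (fun k => (xi_pos k).le) xi_le_eta eta_tendsto

theorem inv_le_xi (j : ℕ) : 1 / (j : ℝ) ≤ xi (lv j) := by
  rcases Nat.eq_zero_or_pos j with rfl | hj
  · simpa using (xi_pos _).le
  unfold xi lv
  have h1 : (Nat.sqrt (Nat.log 2 j)) ^ 2 ≤ Nat.log 2 j := Nat.sqrt_le' _
  have h2 : 2 ^ (Nat.log 2 j) ≤ j := Nat.pow_log_le_self 2 hj.ne'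
  have h3 : ((2 : ℝ)) ^ ((Nat.sqrt (Nat.log 2 j)) ^ 2) ≤ j := by
    have : 2 ^ ((Nat.sqrt (Nat.log 2 j)) ^ 2) ≤ j :=
      (Nat.pow_le_pow_right (by norm_num) h1).trans h2
    exact_mod_cast this
  rw [one_div_pow]
  apply one_div_le_one_div_of_le (by positivity) h3

theorem not_summable_xi : ¬ Summable (fun j => xi (lv j)) := by
  intro h
  apply Real.not_summable_one_div_natCast
  exact Summable.of_nonneg_of_le (fun j => by positivity) inv_le_xi h

theorem not_summable_eta : ¬ Summable (fun j => eta (lv j)) := by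
  intro h
  apply not_summable_xi
  exact Summable.of_nonneg_of_le (fun j => (xi_pos _).le) (fun j => xi_le_eta _) h

theorem abs_s1 (r : ℕ) : |s1 r| = 1 := by unfold s1; split_ifs <;> simp
theorem abs_s2 (r : ℕ) : |s2 r| = 1 := by unfold s2; split_ifs <;> simp

theorem norm_le (a b : ℝ) : ‖(!₂[a, b] : Plane)‖ ≤ |a| + |b| := by
  rw [EuclideanSpace.norm_eq]
  simp only [Fin.sum_univ_two]
  rw [Real.sqrt_le_left (by positivity)]
  simp
  nlinarith [abs_nonneg a, abs_nonneg b, sq_abs a, sq_abs b, mul_nonneg (abs_nonneg a) (abs_nonneg b)]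

theorem abs_coord_le (v : Plane) (i : Fin 2) : |v i| ≤ ‖v‖ := by
  have := EuclideanSpace.norm_eq v
  rw [this]
  apply Real.abs_le_sqrt
  rw [Fin.sum_univ_two]
  fin_cases i
  · simp; positivity
  · simp; positivity

theorem norm_ser_le (n : ℕ) : ‖ser n‖ ≤ 2 * eta (lv (n / 8)) := by
  unfold ser
  refine (norm_le _ _).trans ?_
  rw [abs_mul, abs_mul, abs_s1, abs_s2, abs_of_pos (xi_pos _), abs_of_pos (eta_pos _)]
  linarith [xi_le_eta (lv (n / 8))]

theorem eta_le_norm_ser (n : ℕ) : eta (lv (n / 8)) ≤ ‖ser n‖ := by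
  have h := abs_coord_le (ser n) 1
  have h2 : (ser n) 1 = s2 (n % 4) * eta (lv (n / 8)) := by simp [ser]
  rw [h2, abs_mul, abs_s2, abs_of_pos (eta_pos _), one_mul] at h
  exact h

theorem ser_tendsto : Tendsto ser atTop (𝓝 0) := by
  have hdiv : Tendsto (fun n : ℕ => n / 8) atTop atTop :=
    Nat.tendsto_div_const_atTop (by norm_num)
  have h1 : Tendsto (fun n : ℕ => 2 * eta (lv (n / 8))) atTop (𝓝 0) := by
    have := ((eta_tendsto.comp lv_tendsto).comp hdiv).const_mul 2
    simpa using this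
  exact squeeze_zero_norm norm_ser_le h1

theorem ser_ind_tendsto (T : Set ℕ) : Tendsto (T.indicator ser) atTop (𝓝 0) := by
  refine squeeze_zero_norm (a := fun n => ‖ser n‖) (fun n => ?_) (by simpa using ser_tendsto.norm)
  exact norm_indicator_le_norm_self _ _

/-- the terms within a group -/
theorem ser_group (j i : ℕ) (hi : i < 8) :
    ser (8 * j + i) = !₂[s1 (i % 4) * xi (lv j), s2 (i % 4) * eta (lv j)] := by
  unfold ser
  have h1 : (8 * j + i) % 4 = i % 4 := by omega
  have h2 : (8 * j + i) / 8 = j := by omega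
  rw [h1, h2]

theorem group (S : Set ℕ) (R : Finset ℕ) (hR : R ⊆ range 8) (v : ℕ → ℝ) (w : Plane) (a : ℝ)
    (hv : ∀ j, ∑ i ∈ R, ser (8 * j + i) = v j • w)
    (ha : Tendsto (fun N => ∑ n ∈ range N, S.indicator v n) atTop (𝓝 a)) :
    SumsTo ({n | n / 8 ∈ S ∧ n % 8 ∈ R}.indicator ser) (a • w) := by
  classical
  apply Pool.Agent.R266.RS.cyc _ _ 8 (by norm_num) (ser_ind_tendsto _)
  have h1 : ∀ j, ∑ i ∈ range 8, ({n | n / 8 ∈ S ∧ n % 8 ∈ R} : Set ℕ).indicator ser (8 * j + i)
      = S.indicator v j • w := by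
    intro j
    have h2 : ∀ i ∈ range 8, ({n | n / 8 ∈ S ∧ n % 8 ∈ R} : Set ℕ).indicator ser (8 * j + i)
        = if i ∈ R then (if j ∈ S then ser (8 * j + i) else 0) else 0 := by
      intro i hi
      have hi' := Finset.mem_range.1 hi
      have e1 : (8 * j + i) / 8 = j := by omega
      have e2 : (8 * j + i) % 8 = i := by omega
      rw [Set.indicator_apply]
      simp only [Set.mem_ofPred_eq, e1, e2]
      by_cases h3 : j ∈ S <;> by_cases h4 : i ∈ R <;> simp [h3, h4]
    rw [Finset.sum_congr rfl h2, ← Finset.sum_filter]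
    have h5 : (range 8).filter (fun i => i ∈ R) = R := by
      ext i
      simp only [Finset.mem_filter]
      exact ⟨fun h => h.2, fun h => ⟨hR h, h⟩⟩
    rw [h5]
    by_cases h3 : j ∈ S
    · simp only [h3, if_true, Set.indicator_of_mem]
      exact hv j
    · simp [h3]
  simp_rw [h1]
  have h2 : (fun J => ∑ j ∈ range J, S.indicator v j • w)
      = fun J => (∑ j ∈ range J, S.indicator v j) • w := by
    funext J
    rw [Finset.sum_smul]
  rw [h2]
  exact ha.smul_const w

theorem xi2_tendsto : Tendsto (fun j => 2 * xi (lv j)) atTop (𝓝 0) := by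
  simpa using (xi_tendsto.comp lv_tendsto).const_mul 2

theorem eta2_tendsto : Tendsto (fun j => 2 * eta (lv j)) atTop (𝓝 0) := by
  simpa using (eta_tendsto.comp lv_tendsto).const_mul 2

theorem not_summable_xi2 : ¬ Summable (fun j => 2 * xi (lv j)) := by
  intro h
  exact not_summable_xi ((summable_mul_left_iff (by norm_num : (2 : ℝ) ≠ 0)).1 h)

theorem not_summable_eta2 : ¬ Summable (fun j => 2 * eta (lv j)) := by
  intro h
  exact not_summable_eta ((summable_mul_left_iff (by norm_num : (2 : ℝ) ≠ 0)).1 h)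

theorem horiz (a : ℝ) (j0 : ℕ) : ∃ T : Set ℕ, (∀ n ∈ T, j0 ≤ n / 8 ∧ n % 8 < 4) ∧
    SumsTo (T.indicator ser) !₂[a, 0] := by
  obtain ⟨S, hS, hSs⟩ := Pool.Agent.R266.RS.greedy (fun j => 2 * xi (lv j))
    (fun j => by have := xi_pos (lv j); positivity) xi2_tendsto not_summable_xi2 j0 |a|
    (abs_nonneg a)
  rcases le_total 0 a with ha | ha
  · have h := group S {0, 1} (by decide) _ !₂[1, 0] |a| (by
      intro j
      rw [Finset.sum_pair (by norm_num), ser_group j 0 (by norm_num), ser_group j 1 (by norm_num)]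
      ext i
      fin_cases i <;> simp [s1, s2] <;> ring) hSs
    refine ⟨{n | n / 8 ∈ S ∧ n % 8 ∈ ({0, 1} : Finset ℕ)}, fun n hn => ⟨hS _ hn.1, ?_⟩, ?_⟩
    · have := hn.2
      simp at this
      omega
    · convert h using 1
      ext i
      fin_cases i <;> simp [abs_of_nonneg ha]
  · have h := group S {2, 3} (by decide) _ !₂[-1, 0] |a| (by
      intro j
      rw [Finset.sum_pair (by norm_num), ser_group j 2 (by norm_num), ser_group j 3 (by norm_num)]
      ext i
      fin_cases i <;> simp [s1, s2] <;> ring) hSs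
    refine ⟨{n | n / 8 ∈ S ∧ n % 8 ∈ ({2, 3} : Finset ℕ)}, fun n hn => ⟨hS _ hn.1, ?_⟩, ?_⟩
    · have := hn.2
      simp at this
      omega
    · convert h using 1
      ext i
      fin_cases i <;> simp [abs_of_nonpos ha]

theorem verti (b : ℝ) (j0 : ℕ) : ∃ T : Set ℕ, (∀ n ∈ T, j0 ≤ n / 8 ∧ 4 ≤ n % 8) ∧
    SumsTo (T.indicator ser) !₂[0, b] := by
  obtain ⟨S, hS, hSs⟩ := Pool.Agent.R266.RS.greedy (fun j => 2 * eta (lv j))
    (fun j => by have := eta_pos (lv j); positivity) eta2_tendsto not_summable_eta2 j0 |b|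
    (abs_nonneg b)
  rcases le_total 0 b with ha | ha
  · have h := group S {4, 7} (by decide) _ !₂[0, 1] |b| (by
      intro j
      rw [Finset.sum_pair (by norm_num), ser_group j 4 (by norm_num), ser_group j 7 (by norm_num)]
      ext i
      fin_cases i <;> simp [s1, s2] <;> ring) hSs
    refine ⟨{n | n / 8 ∈ S ∧ n % 8 ∈ ({4, 7} : Finset ℕ)}, fun n hn => ⟨hS _ hn.1, ?_⟩, ?_⟩
    · have := hn.2
      simp at this
      omega
    · convert h using 1
      ext i
      fin_cases i <;> simp [abs_of_nonneg ha]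
  · have h := group S {5, 6} (by decide) _ !₂[0, -1] |b| (by
      intro j
      rw [Finset.sum_pair (by norm_num), ser_group j 5 (by norm_num), ser_group j 6 (by norm_num)]
      ext i
      fin_cases i <;> simp [s1, s2] <;> ring) hSs
    refine ⟨{n | n / 8 ∈ S ∧ n % 8 ∈ ({5, 6} : Finset ℕ)}, fun n hn => ⟨hS _ hn.1, ?_⟩, ?_⟩
    · have := hn.2
      simp at this
      omega
    · convert h using 1
      ext i
      fin_cases i <;> simp [abs_of_nonpos ha]

/-- every point is the sum of a subseries that starts as late as we wish -/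
theorem achieve (s : Plane) (j0 : ℕ) : ∃ T : Set ℕ, (∀ n ∈ T, j0 ≤ n / 8) ∧
    SumsTo (T.indicator ser) s := by
  obtain ⟨T1, h1, h1s⟩ := horiz (s 0) j0
  obtain ⟨T2, h2, h2s⟩ := verti (s 1) j0
  refine ⟨T1 ∪ T2, ?_, ?_⟩
  · rintro n (hn | hn)
    · exact (h1 n hn).1
    · exact (h2 n hn).1
  · have hd : Disjoint T1 T2 := by
      rw [Set.disjoint_left]
      intro n hn1 hn2
      have := (h1 n hn1).2
      have := (h2 n hn2).2
      omega
    have h3 : (T1 ∪ T2).indicator ser = fun n => T1.indicator ser n + T2.indicator ser n := by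
      rw [Set.indicator_union_of_disjoint hd]
    unfold SumsTo at *
    rw [h3]
    simp_rw [Finset.sum_add_distrib]
    convert h1s.add h2s using 2
    ext i
    fin_cases i <;> simp

theorem sum_groups_zero (J : ℕ) : ∑ n ∈ range (8 * J), ser n = 0 := by
  rw [Pool.Agent.R266.RS.sum_range_mul]
  apply Finset.sum_eq_zero
  intro j _
  simp only [Finset.sum_range_succ, Finset.sum_range_zero, zero_add]
  have h0 := ser_group j 0 (by norm_num)
  rw [add_zero] at h0
  simp only [add_zero]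
  rw [h0, ser_group j 1 (by norm_num), ser_group j 2 (by norm_num),
    ser_group j 3 (by norm_num), ser_group j 4 (by norm_num), ser_group j 5 (by norm_num),
    ser_group j 6 (by norm_num), ser_group j 7 (by norm_num)]
  ext i
  fin_cases i <;> simp [s1, s2]

theorem ser_sumsTo_zero : SumsTo ser 0 := by
  apply Pool.Agent.R266.RS.cyc _ _ 8 (by norm_num) ser_tendsto
  have : (fun J => ∑ j ∈ range J, ∑ i ∈ range 8, ser (8 * j + i)) = fun _ => 0 := by
    funext J
    rw [← Pool.Agent.R266.RS.sum_range_mul, sum_groups_zero]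
  rw [this]
  exact tendsto_const_nhds

theorem ser_condConv : CondConv ser := by
  refine ⟨⟨0, ser_sumsTo_zero⟩, fun h => not_summable_eta ?_⟩
  have h1 : Function.Injective (fun j : ℕ => 8 * j) := fun a b hab => by
    simp only at hab; omega
  have h2 := h.comp_injective h1
  refine Summable.of_nonneg_of_le (fun j => (eta_pos _).le) (fun j => ?_) h2
  have := eta_le_norm_ser (8 * j)
  rw [Nat.mul_div_cancel_left j (by norm_num)] at this
  exact this

theorem ser_achievement : achievementSet ser = Set.univ := by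
  rw [Set.eq_univ_iff_forall]
  intro s
  obtain ⟨T, -, hT⟩ := achieve s 0
  exact ⟨T, hT⟩

theorem ser_sumRange : sumRange ser = Set.univ := by
  classical
  rw [Set.eq_univ_iff_forall]
  intro s
  apply Pool.Agent.R266.RS.exists_rearrangement ser s ser_tendsto
  intro n0 ε hε
  obtain ⟨T, hT, hTs⟩ := achieve s n0
  obtain ⟨N, hN⟩ := (Metric.tendsto_atTop.1 hTs) ε hε
  refine ⟨8 * n0, by omega, (range N).filter (fun n => n ∈ T), ?_, ?_⟩
  · intro g hg
    have := hT g (Finset.mem_filter.1 hg).2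
    omega
  · rw [sum_groups_zero, zero_add, Finset.sum_filter]
    have h1 := hN N le_rfl
    rw [dist_eq_norm] at h1
    have h2 : ∑ a ∈ range N, (if a ∈ T then ser a else 0) = ∑ n ∈ range N, T.indicator ser n :=
      Finset.sum_congr rfl fun n _ => by rw [Set.indicator_apply]
    rw [h2]
    exact h1

/-! ### Levy vectors -/

theorem xi_le_sq (k : ℕ) (hk : 2 ≤ k) : xi k ≤ eta k * eta k := by
  unfold xi eta
  rw [← pow_add]
  apply pow_le_pow_of_le_one (by norm_num) (by norm_num)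
  nlinarith

theorem inner_eq (u v : Plane) : inner ℝ u v = u 0 * v 0 + u 1 * v 1 := by
  simp [PiLp.inner_apply, Fin.sum_univ_two, mul_comm]

theorem norm_ser_le' (n : ℕ) : ‖ser n‖ ≤ xi (lv (n / 8)) + eta (lv (n / 8)) := by
  unfold ser
  refine (norm_le _ _).trans ?_
  rw [abs_mul, abs_mul, abs_s1, abs_s2, abs_of_pos (xi_pos _), abs_of_pos (eta_pos _)]
  linarith

theorem levy_of (c : ℝ) (hc : |c| = 1) (r : ℕ) (hr : r < 8) (hcr : c * s2 (r % 4) = 1) :
    (!₂[0, c] : Plane) ∈ levyVectors ser := by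
  have hn1 : ‖(!₂[0, c] : Plane)‖ = 1 := by
    rw [EuclideanSpace.norm_eq]
    simp only [Fin.sum_univ_two]
    simp only [Fin.isValue, Matrix.cons_val_zero, Matrix.cons_val_one, Real.norm_eq_abs, hc]
    norm_num
  refine ⟨hn1, fun ε hε hs => ?_⟩
  have hinj : Function.Injective (fun j : ℕ => 8 * j + r) := fun a b hab => by
    simp only at hab; omega
  have h2 := hs.comp_injective hinj
  obtain ⟨K, hK⟩ := eventually_atTop.1 (eta_tendsto.eventually (eventually_lt_nhds hε))
  obtain ⟨J, hJ⟩ := eventually_atTop.1 (lv_tendsto.eventually (eventually_ge_atTop (max 2 K)))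
  apply not_summable_eta
  rw [← summable_nat_add_iff J]
  rw [← summable_nat_add_iff J] at h2
  refine Summable.of_nonneg_of_le (fun j => (eta_pos _).le) (fun j => ?_) h2
  have hl := hJ (j + J) (by omega)
  have hl2 : 2 ≤ lv (j + J) := le_trans (le_max_left _ _) hl
  have hlK : K ≤ lv (j + J) := le_trans (le_max_right _ _) hl
  have e1 : (8 * (j + J) + r) / 8 = j + J := by omega
  have hmem : ser (8 * (j + J) + r) ∈ cone ε (!₂[0, c] : Plane) := by
    show (1 - ε) * ‖(!₂[0, c] : Plane)‖ * ‖ser (8 * (j + J) + r)‖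
      ≤ inner ℝ (!₂[0, c] : Plane) (ser (8 * (j + J) + r))
    rw [hn1, inner_eq, ser_group _ _ hr]
    have hin : (!₂[0, c] : Plane) 0 * (!₂[s1 (r % 4) * xi (lv (j + J)),
        s2 (r % 4) * eta (lv (j + J))] : Plane) 0
        + (!₂[0, c] : Plane) 1 * (!₂[s1 (r % 4) * xi (lv (j + J)),
        s2 (r % 4) * eta (lv (j + J))] : Plane) 1 = (c * s2 (r % 4)) * eta (lv (j + J)) := by
      simp; ring
    rw [hin, hcr, ← ser_group _ _ hr]
    have h3 := norm_ser_le' (8 * (j + J) + r)
    rw [e1] at h3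
    have h4 := xi_le_sq _ hl2
    have h5 := hK _ hlK
    have h6 := eta_pos (lv (j + J))
    have h7 := xi_pos (lv (j + J))
    have h8 := norm_nonneg (ser (8 * (j + J) + r))
    rcases le_total ε 1 with h9 | h9
    · have : (1 - ε) * 1 * ‖ser (8 * (j + J) + r)‖
          ≤ (1 - ε) * (xi (lv (j + J)) + eta (lv (j + J))) := by
        rw [mul_one]
        exact mul_le_mul_of_nonneg_left h3 (by linarith)
      nlinarith
    · nlinarith
  have h3 : ({n | ser n ∈ cone ε (!₂[0, c] : Plane)}.indicator (fun n => ‖ser n‖))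
      (8 * (j + J) + r) = ‖ser (8 * (j + J) + r)‖ := Set.indicator_of_mem hmem _
  show eta (lv (j + J)) ≤ ({n | ser n ∈ cone ε (!₂[0, c] : Plane)}.indicator (fun n => ‖ser n‖))
      (8 * (j + J) + r)
  rw [h3]
  have := eta_le_norm_ser (8 * (j + J) + r)
  rw [e1] at this
  exact this

theorem ser_levy : levyVectors ser = {!₂[0, 1], !₂[0, -1]} := by
  apply Set.eq_of_subset_of_subset
  · rintro u ⟨hu, hlev⟩
    by_contra hne
    have hsq : u 0 ^ 2 + u 1 ^ 2 = 1 := by
      have h1 := EuclideanSpace.norm_sq_eq u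
      rw [hu, Fin.sum_univ_two] at h1
      simpa using h1.symm
    have hu1 : |u 1| < 1 := by
      have hle : |u 1| ≤ 1 := by rw [← hu]; exact abs_coord_le u 1
      refine lt_of_le_of_ne hle fun heq => hne ?_
      have h1 : u 1 ^ 2 = 1 := by rw [← sq_abs, heq]; norm_num
      have h0 : u 0 = 0 := by
        have : u 0 ^ 2 = 0 := by linarith
        exact pow_eq_zero_iff (by norm_num) |>.1 this
      rcases (abs_eq (by norm_num : (0 : ℝ) ≤ 1)).1 heq with h | h
      · left
        ext i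
        fin_cases i
        · simpa using h0
        · simpa using h
      · right
        show u = !₂[0, -1]
        ext i
        fin_cases i
        · simpa using h0
        · simpa using h
    have hδ : 0 < (1 - |u 1|) / 2 := by linarith
    refine hlev ((1 - |u 1|) / 2) hδ ?_
    obtain ⟨K, hK⟩ := eventually_atTop.1 (eta_tendsto.eventually (eventually_lt_nhds hδ))
    obtain ⟨J, hJ⟩ := eventually_atTop.1 (lv_tendsto.eventually (eventually_ge_atTop (max 2 K)))
    rw [← summable_nat_add_iff (8 * J)]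
    have hz : (fun n => ({n | ser n ∈ cone ((1 - |u 1|) / 2) u}.indicator
        (fun n => ‖ser n‖)) (n + 8 * J)) = fun _ => 0 := by
      funext n
      apply Set.indicator_of_notMem
      intro hmem
      have hmem' : (1 - (1 - |u 1|) / 2) * ‖u‖ * ‖ser (n + 8 * J)‖
          ≤ inner ℝ u (ser (n + 8 * J)) := hmem
      have hl := hJ ((n + 8 * J) / 8) (by omega)
      set k := lv ((n + 8 * J) / 8) with hk
      have hl2 : 2 ≤ k := le_trans (le_max_left _ _) hl
      have hlK : K ≤ k := le_trans (le_max_right _ _) hl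
      rw [hu, mul_one, inner_eq] at hmem'
      have h0 : (ser (n + 8 * J)) 0 = s1 ((n + 8 * J) % 4) * xi k := by simp [ser, hk]
      have h1 : (ser (n + 8 * J)) 1 = s2 ((n + 8 * J) % 4) * eta k := by simp [ser, hk]
      rw [h0, h1] at hmem'
      have h2 : u 0 * (s1 ((n + 8 * J) % 4) * xi k) ≤ xi k := by
        refine (le_abs_self _).trans ?_
        rw [abs_mul, abs_mul, abs_s1, one_mul, abs_of_pos (xi_pos k)]
        have : |u 0| ≤ 1 := by rw [← hu]; exact abs_coord_le u 0
        nlinarith [xi_pos k]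
      have h3 : u 1 * (s2 ((n + 8 * J) % 4) * eta k) ≤ |u 1| * eta k := by
        refine (le_abs_self _).trans ?_
        rw [abs_mul, abs_mul, abs_s2, one_mul, abs_of_pos (eta_pos k)]
      have h4 := eta_le_norm_ser (n + 8 * J)
      rw [← hk] at h4
      have h5 := xi_le_sq k hl2
      have h6 := hK k hlK
      have h7 := eta_pos k
      have h8 : (1 - (1 - |u 1|) / 2) * eta k ≤ (1 - (1 - |u 1|) / 2) * ‖ser (n + 8 * J)‖ := by
        apply mul_le_mul_of_nonneg_left h4
        have := abs_nonneg (u 1)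
        linarith
      have h9 : (1 - (1 - |u 1|) / 2) * eta k ≤ eta k * eta k + |u 1| * eta k := by linarith
      have h10 : (1 - |u 1|) / 2 * eta k ≤ eta k * eta k := by nlinarith
      have h11 : (1 - |u 1|) / 2 ≤ eta k := le_of_mul_le_mul_right h10 h7
      linarith
    rw [hz]
    exact summable_zero
  · rintro u (rfl | hu)
    · exact levy_of 1 (by simp) 0 (by norm_num) (by simp [s2])
    · rw [Set.mem_singleton_iff] at hu
      subst hu
      exact levy_of (-1) (by simp) 2 (by norm_num) (by simp [s2])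

theorem ser_levy_card : (levyVectors ser).ncard = 2 := by
  rw [ser_levy]
  apply Set.ncard_pair
  intro h
  have h1 := congrArg (fun v : Plane => v 1) h
  simp at h1
  norm_num at h1

/-! ### The bad order -/

def key (n : ℕ) : ℕ := 2 * lv (n / 8) + n % 2

theorem key_ge (k n : ℕ) (h : 8 * 2 ^ (k ^ 2) ≤ n) : 2 * k ≤ key n := by
  have h1 : 2 ^ (k ^ 2) ≤ n / 8 := by
    rw [Nat.le_div_iff_mul_le (by norm_num)]
    omega
  have h2 := lv_ge k _ h1
  unfold key
  omega

theorem key_fin (k : ℕ) : {n | key n = k}.Finite := by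
  apply (Set.finite_Iio (8 * 2 ^ ((k + 1) ^ 2))).subset
  intro n hn
  rw [Set.mem_Iio]
  by_contra hc
  push Not at hc
  have h1 := key_ge (k + 1) n hc
  have h2 : key n = k := hn
  omega

def pv (k : ℕ) : Plane := !₂[xi k, eta k]
def qv (k : ℕ) : Plane := !₂[xi k, -eta k]

theorem ser_even (n k : ℕ) (h : key n = 2 * k) : ser n ∈ AddSubgroup.zmultiples (pv k) := by
  unfold key at h
  have h1 : lv (n / 8) = k := by omega
  have h2 : n % 4 = 0 ∨ n % 4 = 2 := by omega
  unfold ser
  rw [h1]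
  rcases h2 with h2 | h2
  · rw [h2]
    refine AddSubgroup.mem_zmultiples_iff.2 ⟨1, ?_⟩
    rw [one_smul]
    unfold pv
    ext i
    fin_cases i <;> simp [s1, s2]
  · rw [h2]
    refine AddSubgroup.mem_zmultiples_iff.2 ⟨-1, ?_⟩
    rw [neg_smul, one_smul]
    unfold pv
    ext i
    fin_cases i <;> simp [s1, s2]

theorem ser_odd (n k : ℕ) (h : key n = 2 * k + 1) : ser n ∈ AddSubgroup.zmultiples (qv k) := by
  unfold key at h
  have h1 : lv (n / 8) = k := by omega
  have h2 : n % 4 = 1 ∨ n % 4 = 3 := by omega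
  unfold ser
  rw [h1]
  rcases h2 with h2 | h2
  · rw [h2]
    refine AddSubgroup.mem_zmultiples_iff.2 ⟨1, ?_⟩
    rw [one_smul]
    unfold qv
    ext i
    fin_cases i <;> simp [s1, s2]
  · rw [h2]
    refine AddSubgroup.mem_zmultiples_iff.2 ⟨-1, ?_⟩
    rw [neg_smul, one_smul]
    unfold qv
    ext i
    fin_cases i <;> simp [s1, s2]

theorem two_pow_mul_xi (k : ℕ) : (2 : ℝ) ^ (k ^ 2) * xi k = 1 := by
  unfold xi
  rw [← mul_pow]
  norm_num

theorem bad (σ : Equiv.Perm ℕ) (hσ : Monotone (key ∘ σ)) (b : ℝ) :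
    (!₂[1 / 3, b] : Plane) ∉ achievementSet (ser ∘ σ) := by
  classical
  rintro ⟨T, hT⟩
  have hex : ∀ κ : ℕ, ∃ n, κ ≤ key (σ n) := by
    intro κ
    refine ⟨σ.symm (8 * 2 ^ (κ ^ 2)), ?_⟩
    rw [Equiv.apply_symm_apply]
    have := key_ge κ _ le_rfl
    omega
  let N : ℕ → ℕ := fun κ => Nat.find (hex κ)
  have hNlt : ∀ κ n, n < N κ → key (σ n) < κ := fun κ n hn => not_le.1 (Nat.find_min (hex κ) hn)
  have hNge : ∀ κ n, N κ ≤ n → κ ≤ key (σ n) := fun κ n hn =>
    (Nat.find_spec (hex κ)).trans (hσ hn)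
  have hN0 : N 0 = 0 := by
    have : N 0 ≤ 0 := Nat.find_min' (hex 0) (Nat.zero_le _)
    omega
  have hNs : ∀ κ, N κ ≤ N (κ + 1) := fun κ =>
    Nat.find_min' (hex κ) (by have := hNge (κ + 1) _ le_rfl; omega)
  have hNt : Tendsto N atTop atTop := by
    apply tendsto_atTop.2
    intro n
    refine (eventually_ge_atTop (key (σ n) + 1)).mono fun κ hκ => ?_
    by_contra hc
    push Not at hc
    have := hNge κ n hc.le
    omega
  let S : ℕ → Plane := fun n => ∑ i ∈ range n, T.indicator (ser ∘ σ) i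
  have hblock : ∀ κ, S (N (κ + 1)) - S (N κ)
      = ∑ i ∈ Finset.Ico (N κ) (N (κ + 1)), T.indicator (ser ∘ σ) i := by
    intro κ
    rw [Finset.sum_Ico_eq_sub _ (hNs κ)]
  have hmemb : ∀ κ, ∀ i ∈ Finset.Ico (N κ) (N (κ + 1)), key (σ i) = κ := by
    intro κ i hi
    rw [Finset.mem_Ico] at hi
    have h1 := hNge κ i hi.1
    have h2 := hNlt (κ + 1) i hi.2
    omega
  have hp : ∀ k, ∃ z : ℤ, z • pv k = S (N (2 * k + 1)) - S (N (2 * k)) := by
    intro k
    rw [← AddSubgroup.mem_zmultiples_iff, hblock]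
    apply AddSubgroup.sum_mem
    intro i hi
    rw [Set.indicator_apply]
    split_ifs
    · exact ser_even _ _ (hmemb _ i hi)
    · exact AddSubgroup.zero_mem _
  have hq : ∀ k, ∃ z : ℤ, z • qv k = S (N (2 * k + 1 + 1)) - S (N (2 * k + 1)) := by
    intro k
    rw [← AddSubgroup.mem_zmultiples_iff, hblock]
    apply AddSubgroup.sum_mem
    intro i hi
    rw [Set.indicator_apply]
    split_ifs
    · exact ser_odd _ _ (hmemb _ i hi)
    · exact AddSubgroup.zero_mem _
  choose a ha using hp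
  choose c hc using hq
  have hlim : Tendsto (fun κ => S (N κ)) atTop (𝓝 (!₂[1 / 3, b] : Plane)) := hT.comp hNt
  have hdiff : Tendsto (fun κ => S (N (κ + 1)) - S (N κ)) atTop (𝓝 0) := by
    have := (hlim.comp (tendsto_add_atTop_nat 1)).sub hlim
    rw [sub_self] at this
    exact this
  obtain ⟨κ0, hκ0⟩ := eventually_atTop.1
    (hdiff.norm.eventually (eventually_lt_nhds (b := 1) (by simp)))
  have hcoef : ∀ (z : ℤ) (k : ℕ) (y : ℝ) (v : Plane), |y| = eta k → |(z : ℝ) * y| ≤ ‖v‖ → ‖v‖ < 1 →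
      |(z : ℝ)| ≤ 2 ^ k := by
    intro z k y v hy h1 h2
    rw [abs_mul, hy] at h1
    have h3 : |(z : ℝ)| * eta k < 1 := lt_of_le_of_lt h1 h2
    unfold eta at h3
    have h4 : (2 : ℝ) ^ k * (1 / 2) ^ k = 1 := by rw [← mul_pow]; norm_num
    have h5 : (0 : ℝ) < 2 ^ k := by positivity
    nlinarith
  have hac : ∀ k, κ0 ≤ k → |(a k : ℝ)| ≤ 2 ^ k := by
    intro k hk
    refine hcoef (a k) k (eta k) _ (abs_of_pos (eta_pos k)) ?_ (hκ0 (2 * k) (by omega))
    have h1 := abs_coord_le (S (N (2 * k + 1)) - S (N (2 * k))) 1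
    rw [← ha k] at h1 ⊢
    simpa [pv] using h1
  have hcc : ∀ k, κ0 ≤ k → |(c k : ℝ)| ≤ 2 ^ k := by
    intro k hk
    refine hcoef (c k) k (-eta k) _ (by rw [abs_neg]; exact abs_of_pos (eta_pos k)) ?_
      (hκ0 (2 * k + 1) (by omega))
    have h1 := abs_coord_le (S (N (2 * k + 1 + 1)) - S (N (2 * k + 1))) 1
    rw [← hc k] at h1 ⊢
    simpa [qv] using h1
  let A : ℕ → ℝ := fun k => (S (N (2 * k))) 0
  have hA : ∀ k, A (k + 1) = A k + ((a k : ℝ) + c k) * xi k := by
    intro k
    have h1 : (S (N (2 * k + 1)) - S (N (2 * k))) 0 = (a k : ℝ) * xi k := by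
      rw [← ha k]; simp [pv]
    have h2 : (S (N (2 * k + 1 + 1)) - S (N (2 * k + 1))) 0 = (c k : ℝ) * xi k := by
      rw [← hc k]; simp [qv]
    have h3 : 2 * (k + 1) = 2 * k + 1 + 1 := by ring
    show (S (N (2 * (k + 1)))) 0 = (S (N (2 * k))) 0 + _
    rw [h3]
    rw [PiLp.sub_apply] at h1 h2
    linarith
  have hA0 : A 0 = 0 := by
    show (S (N (2 * 0))) 0 = 0
    rw [mul_zero, hN0]
    simp [S]
  have hAt : Tendsto A atTop (𝓝 (1 / 3)) := by
    have h1 : Tendsto (fun k : ℕ => 2 * k) atTop atTop :=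
      tendsto_atTop_mono (fun k => by simp only [id]; omega) tendsto_id
    have h2 := (hlim.comp h1)
    have h3 : Continuous (fun v : Plane => v 0) := by fun_prop
    have h4 := (h3.tendsto (!₂[1 / 3, b] : Plane)).comp h2
    have h5 : (!₂[1 / 3, b] : Plane) 0 = 1 / 3 := by simp
    rw [h5] at h4
    exact h4
  have hint : ∀ k, ∃ z : ℤ, A (k + 1) * 2 ^ (k ^ 2) = z := by
    intro k
    induction k with
    | zero =>
      refine ⟨a 0 + c 0, ?_⟩
      rw [hA, hA0]
      simp [xi]
    | succ k ih =>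
      obtain ⟨z, hz⟩ := ih
      refine ⟨z * 2 ^ (2 * k + 1) + (a (k + 1) + c (k + 1)), ?_⟩
      rw [hA (k + 1)]
      have h1 : (2 : ℝ) ^ ((k + 1) ^ 2) = 2 ^ (k ^ 2) * 2 ^ (2 * k + 1) := by
        rw [← pow_add]; congr 1; ring
      have h2 := two_pow_mul_xi (k + 1)
      push_cast
      rw [← hz]
      calc (A (k + 1) + ((a (k + 1) : ℝ) + c (k + 1)) * xi (k + 1)) * 2 ^ ((k + 1) ^ 2)
          = A (k + 1) * 2 ^ ((k + 1) ^ 2)
            + ((a (k + 1) : ℝ) + c (k + 1)) * (2 ^ ((k + 1) ^ 2) * xi (k + 1)) := by ring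
        _ = _ := by rw [h2, h1]; ring
  have henv : ∀ k, max 4 κ0 ≤ k → |A (k + 2) - A (k + 1)| ≤ xi k / 4 - xi (k + 1) / 4 := by
    intro k hk
    have hk4 : 4 ≤ k := le_trans (le_max_left _ _) hk
    have hk0 : κ0 ≤ k + 1 := le_trans (le_trans (le_max_right _ _) hk) (by omega)
    rw [hA (k + 1), add_sub_cancel_left, abs_mul, abs_of_pos (xi_pos _)]
    have h1 : |(a (k + 1) : ℝ) + c (k + 1)| ≤ 2 * 2 ^ (k + 1) := by
      refine (abs_add_le _ _).trans ?_
      linarith [hac (k + 1) hk0, hcc (k + 1) hk0]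
    have h2 : xi (k + 1) = xi k * ((1 / 2) ^ k * (1 / 2) ^ k * (1 / 2)) := by
      unfold xi
      rw [← pow_add, ← pow_succ, ← pow_add]
      congr 1; ring
    have h3 : (2 : ℝ) ^ (k + 1) = 2 * 2 ^ k := by ring
    have h4 : (2 : ℝ) ^ k * (1 / 2) ^ k = 1 := by rw [← mul_pow]; norm_num
    have h5 : ((1 : ℝ) / 2) ^ k ≤ 1 / 16 := by
      calc ((1 : ℝ) / 2) ^ k ≤ (1 / 2) ^ 4 :=
            pow_le_pow_of_le_one (by norm_num) (by norm_num) hk4
        _ = 1 / 16 := by norm_num
    have h6 : (0 : ℝ) < (1 / 2) ^ k := by positivity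
    have h7 := xi_pos k
    calc |(a (k + 1) : ℝ) + c (k + 1)| * xi (k + 1) ≤ (2 * 2 ^ (k + 1)) * xi (k + 1) :=
          mul_le_mul_of_nonneg_right h1 (xi_pos _).le
      _ = xi k * (2 * ((2 : ℝ) ^ k * (1 / 2) ^ k) * (1 / 2) ^ k) := by rw [h2, h3]; ring
      _ = xi k * (2 * (1 / 2) ^ k) := by rw [h4]; ring
      _ ≤ xi k * (1 / 4 - (1 / 2) ^ k * (1 / 2) ^ k * (1 / 2) / 4) := by
          apply mul_le_mul_of_nonneg_left _ h7.le
          nlinarith
      _ = xi k / 4 - xi (k + 1) / 4 := by rw [h2]; ring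
  set K := max 4 κ0 with hKdef
  have hsum : ∀ d, |A (K + d + 1) - A (K + 1)| ≤ xi K / 4 - xi (K + d) / 4 := by
    intro d
    induction d with
    | zero => simp
    | succ d ih =>
      have h1 := henv (K + d) (by omega)
      have h2 : A (K + (d + 1) + 1) - A (K + 1)
          = (A (K + d + 2) - A (K + d + 1)) + (A (K + d + 1) - A (K + 1)) := by
        have : K + (d + 1) + 1 = K + d + 2 := by ring
        rw [this]; ring
      rw [h2]
      refine (abs_add_le _ _).trans ?_
      have h3 : K + (d + 1) = K + d + 1 := by ring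
      rw [h3]
      linarith
  have hlast : |1 / 3 - A (K + 1)| ≤ xi K / 4 := by
    have h1 : Tendsto (fun d => |A (K + d + 1) - A (K + 1)|) atTop (𝓝 |1 / 3 - A (K + 1)|) := by
      have h2 : Tendsto (fun d => A (K + d + 1)) atTop (𝓝 (1 / 3)) := by
        apply hAt.comp
        exact tendsto_atTop_mono (fun d => by simp only [id]; omega) tendsto_id
      exact (h2.sub_const _).abs
    refine le_of_tendsto h1 (Eventually.of_forall fun d => ?_)
    have := hsum d
    have := xi_pos (K + d)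
    linarith
  obtain ⟨z, hz⟩ := hint K
  have h1 := two_pow_mul_xi K
  have h2 : (0 : ℝ) < 2 ^ (K ^ 2) := by positivity
  have h3 : |(2 : ℝ) ^ (K ^ 2) - 3 * z| ≤ 3 / 4 := by
    have : (2 : ℝ) ^ (K ^ 2) - 3 * z = 3 * 2 ^ (K ^ 2) * (1 / 3 - A (K + 1)) := by
      rw [← hz]; ring
    rw [this, abs_mul, abs_of_pos (by positivity)]
    calc 3 * 2 ^ (K ^ 2) * |1 / 3 - A (K + 1)| ≤ 3 * 2 ^ (K ^ 2) * (xi K / 4) :=
          mul_le_mul_of_nonneg_left hlast (by positivity)
      _ = 3 / 4 * (2 ^ (K ^ 2) * xi K) := by ring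
      _ = 3 / 4 := by rw [h1, mul_one]
  have h4 : (2 : ℤ) ^ (K ^ 2) - 3 * z = 0 := by
    have h5 : |(((2 : ℤ) ^ (K ^ 2) - 3 * z : ℤ) : ℝ)| < 1 := by
      push_cast
      linarith
    have h6 : |(2 : ℤ) ^ (K ^ 2) - 3 * z| < 1 := by exact_mod_cast h5
    exact Int.abs_lt_one_iff.1 h6
  have h5 : (3 : ℤ) ∣ 2 ^ (K ^ 2) := ⟨z, by linarith⟩
  have h6 : (3 : ℤ) ∣ 2 := Int.prime_three.dvd_of_dvd_pow h5
  norm_num at h6

end

/-- There is a conditionally convergent series in the plane whose sum range and achievement set are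
the whole plane, with exactly two Levy vectors, and a permutation after which the achievement set
is not the whole plane. -/
theorem result : ∃ (x : ℕ → Plane) (σ : Equiv.Perm ℕ), CondConv x ∧ sumRange x = Set.univ ∧
    achievementSet x = Set.univ ∧ (levyVectors x).ncard = 2 ∧
    achievementSet (x ∘ σ) ≠ Set.univ := by
  obtain ⟨σ, hσ⟩ := Pool.Agent.R266.RS.exists_sort key key_fin
  refine ⟨ser, σ, ser_condConv, ser_sumRange, ser_achievement, ser_levy_card, ?_⟩
  intro h
  exact bad σ hσ 0 (h ▸ Set.mem_univ _)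

end Pool.Agent.Results.MP_89b5f7_an.TwoLevy
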